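import Mathlib

/-!
An approval election in which every ballot is an interval of candidates and every
set of supporters is an interval of voters, and whose committees satisfying extended
justified representation are not connected by single replacements.
-/

namespace Pool.Agent.Results.MP_5ed545_co.DisconnectedEJR

open Finset

section defs

variable {n m : ℕ}

/-- The candidates approved by every voter of `S`. -/
def commonApproved (A : Fin n → Finset (Fin m)) (S : Finset (Fin n)) : Finset (Fin m) :=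
  Finset.univ.filter (fun c => ∀ v ∈ S, c ∈ A v)

/-- `S` is `l`-cohesive: it has at least `l * n / k` voters, and they have at least
`l` common approved candidates. -/
def Cohesive (A : Fin n → Finset (Fin m)) (k l : ℕ) (S : Finset (Fin n)) : Prop :=
  (l : ℚ) * (n : ℚ) / (k : ℚ) ≤ (S.card : ℚ) ∧ l ≤ (commonApproved A S).card

/-- `W` is a committee of size `k` satisfying extended justified representation. -/
def IsEJR (A : Fin n → Finset (Fin m)) (k : ℕ) (W : Finset (Fin m)) : Prop :=
  W.card = k ∧ ∀ l : ℕ, 1 ≤ l → ∀ S : Finset (Fin n), Cohesive A k l S →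
    ∃ v ∈ S, l ≤ (A v ∩ W).card

/-- Two committees of size `k` are adjacent if one arises from the other by replacing
a single candidate. -/
def Adjacent (k : ℕ) (W W' : Finset (Fin m)) : Prop :=
  W.card = k ∧ W'.card = k ∧ (W ∩ W').card = k - 1

/-- Any two committees with extended justified representation are joined by a path of
adjacent committees each of which has extended justified representation. -/
def EJRConnected (A : Fin n → Finset (Fin m)) (k : ℕ) : Prop :=
  ∀ W W' : Finset (Fin m), IsEJR A k W → IsEJR A k W' →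
    Relation.ReflTransGen (fun U V => IsEJR A k U ∧ IsEJR A k V ∧ Adjacent k U V) W W'

/-- Candidate interval domain: for some linear order of the candidates every ballot is
a set of consecutive candidates. -/
def CandidateInterval (A : Fin n → Finset (Fin m)) : Prop :=
  ∃ o : LinearOrder (Fin m), ∀ (v : Fin n) (a b c : Fin m),
    a ∈ A v → c ∈ A v → o.le a b → o.le b c → b ∈ A v

/-- Voter interval domain: for some linear order of the voters, the supporters of every
candidate are consecutive voters. -/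
def VoterInterval (A : Fin n → Finset (Fin m)) : Prop :=
  ∃ o : LinearOrder (Fin n), ∀ (c : Fin m) (u v w : Fin n),
    c ∈ A u → c ∈ A w → o.le u v → o.le v w → c ∈ A v

end defs

/-- The block of each of the 23 candidates. -/
def blk : Fin 23 → Fin 13 :=
  ![0, 1, 1, 2, 2, 3, 3, 4, 4, 5, 5, 6, 7, 7, 8, 8, 9, 9, 10, 10, 11, 11, 12]

/-- The first block approved by each of the 44 voters. -/
def lo : Fin 44 → Fin 13 :=
  ![0, 0, 0, 0, 0, 1, 1, 1, 1, 1, 1, 1, 2, 3, 4, 4, 4, 4, 4, 4, 4, 5,
    6, 7, 7, 7, 7, 7, 7, 7, 8, 9, 10, 10, 10, 10, 10, 10, 10, 11, 12, 12, 12, 12]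

/-- The last block approved by each of the 44 voters. -/
def hi : Fin 44 → Fin 13 :=
  ![0, 0, 0, 0, 1, 2, 2, 2, 2, 2, 2, 2, 3, 4, 5, 5, 5, 5, 5, 5, 5, 6,
    7, 8, 8, 8, 8, 8, 8, 8, 9, 10, 11, 11, 11, 11, 11, 11, 11, 12, 12, 12, 12, 12]

/-- The ballots. -/
def bal (v : Fin 44) : Finset (Fin 23) :=
  Finset.univ.filter (fun x => lo v ≤ blk x ∧ blk x ≤ hi v)

/-- The number of members of `W` in block `j`. -/
def cnt (W : Finset (Fin 23)) (j : Fin 13) : ℕ := (W.filter (fun x => blk x = j)).card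

/-- The block counts of the isolated committees. -/
def yy : Fin 13 → ℕ := ![1, 1, 0, 2, 0, 1, 1, 1, 0, 2, 0, 1, 1]

lemma blk_mono : ∀ a b : Fin 23, a ≤ b → blk a ≤ blk b := by decide

lemma lo_mono : ∀ a b : Fin 44, a ≤ b → lo a ≤ lo b := by decide +kernel

lemma hi_mono : ∀ a b : Fin 44, a ≤ b → hi a ≤ hi b := by decide +kernel

lemma mem_bal (v : Fin 44) (x : Fin 23) : x ∈ bal v ↔ lo v ≤ blk x ∧ blk x ≤ hi v := by
  simp [bal]

lemma ci : CandidateInterval bal := by
  refine ⟨inferInstance, ?_⟩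
  intro v a b c ha hc hab hbc
  rw [mem_bal] at *
  exact ⟨le_trans ha.1 (blk_mono a b hab), le_trans (blk_mono b c hbc) hc.2⟩

lemma vi : VoterInterval bal := by
  refine ⟨inferInstance, ?_⟩
  intro c u v w hu hw huv hvw
  rw [mem_bal] at *
  exact ⟨le_trans (lo_mono v w hvw) hw.1, le_trans hu.2 (hi_mono u v huv)⟩

lemma cohesive_card {l : ℕ} {S : Finset (Fin 44)} (h : Cohesive bal 11 l S) :
    4 * l ≤ S.card := by
  have h1 := h.1
  have h2 : (l : ℚ) * ((44 : ℕ) : ℚ) / ((11 : ℕ) : ℚ) = ((4 * l : ℕ) : ℚ) := by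
    push_cast
    ring
  rw [h2] at h1
  exact_mod_cast h1

lemma cohesive_of {l : ℕ} {S : Finset (Fin 44)} (h : 4 * l ≤ S.card)
    (h' : l ≤ (commonApproved bal S).card) : Cohesive bal 11 l S := by
  refine ⟨?_, h'⟩
  have h2 : (l : ℚ) * ((44 : ℕ) : ℚ) / ((11 : ℕ) : ℚ) = ((4 * l : ℕ) : ℚ) := by
    push_cast
    ring
  rw [h2]
  exact_mod_cast h

lemma ejr_of (W : Finset (Fin 23)) (hW : W.card = 11)
    (h : ∀ c : Fin 23,
      (Finset.univ.filter (fun v : Fin 44 => c ∈ bal v ∧ (bal v ∩ W).card < 1)).card < 4 ∧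
      (Finset.univ.filter (fun v : Fin 44 => c ∈ bal v ∧ (bal v ∩ W).card < 2)).card < 8 ∧
      (Finset.univ.filter (fun v : Fin 44 => c ∈ bal v)).card < 12) :
    IsEJR bal 11 W := by
  refine ⟨hW, ?_⟩
  intro l hl S hS
  by_contra hno
  push Not at hno
  have hc := cohesive_card hS
  have hcom := hS.2
  have hne : (commonApproved bal S).Nonempty := by
    rw [← Finset.card_pos]; omega
  obtain ⟨c, hcc⟩ := hne
  have hcA : ∀ v ∈ S, c ∈ bal v := by
    have := hcc
    simp only [commonApproved, Finset.mem_filter, Finset.mem_univ, true_and] at this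
    exact this
  obtain ⟨h1, h2, h3⟩ := h c
  rcases Nat.lt_or_ge l 3 with hl3 | hl3
  · interval_cases l
    · have hsub : S ⊆ Finset.univ.filter
          (fun v : Fin 44 => c ∈ bal v ∧ (bal v ∩ W).card < 1) := by
        intro v hv
        simp only [Finset.mem_filter, Finset.mem_univ, true_and]
        exact ⟨hcA v hv, hno v hv⟩
      have := Finset.card_le_card hsub
      omega
    · have hsub : S ⊆ Finset.univ.filter
          (fun v : Fin 44 => c ∈ bal v ∧ (bal v ∩ W).card < 2) := by
        intro v hv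
        simp only [Finset.mem_filter, Finset.mem_univ, true_and]
        exact ⟨hcA v hv, hno v hv⟩
      have := Finset.card_le_card hsub
      omega
  · have hsub : S ⊆ Finset.univ.filter (fun v : Fin 44 => c ∈ bal v) := by
      intro v hv
      simp only [Finset.mem_filter, Finset.mem_univ, true_and]
      exact hcA v hv
    have := Finset.card_le_card hsub
    omega

/-- The isolated committee. -/
def W0 : Finset (Fin 23) := {0, 1, 5, 6, 9, 11, 12, 16, 17, 20, 22}

/-- A committee in another component. -/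
def W1 : Finset (Fin 23) := {0, 1, 2, 5, 7, 8, 12, 13, 18, 19, 22}

lemma ejr_W0 : IsEJR bal 11 W0 := by
  apply ejr_of
  · decide
  · decide +kernel

lemma ejr_W1 : IsEJR bal 11 W1 := by
  apply ejr_of
  · decide
  · decide +kernel

lemma cnt_W0 : cnt W0 = yy := by
  funext j
  revert j
  decide +kernel

lemma cnt_W1 : cnt W1 ≠ yy := by
  intro h
  have h2 : cnt W1 1 = yy 1 := by rw [h]
  revert h2
  decide +kernel

lemma card_inter (W : Finset (Fin 23)) (v : Fin 44) :
    (bal v ∩ W).card =
      ∑ j ∈ Finset.univ.filter (fun j : Fin 13 => lo v ≤ j ∧ j ≤ hi v), cnt W j := by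
  have h : ∀ x ∈ bal v ∩ W,
      blk x ∈ Finset.univ.filter (fun j : Fin 13 => lo v ≤ j ∧ j ≤ hi v) := by
    intro x hx
    simp only [Finset.mem_inter, mem_bal] at hx
    simp only [Finset.mem_filter, Finset.mem_univ, true_and]
    exact hx.1
  rw [Finset.card_eq_sum_card_fiberwise h]
  apply Finset.sum_congr rfl
  intro j hj
  unfold cnt
  congr 1
  ext x
  simp only [Finset.mem_filter, Finset.mem_univ, true_and] at hj
  simp only [Finset.mem_filter, Finset.mem_inter, mem_bal]
  constructor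
  · rintro ⟨⟨_, hx⟩, hb⟩
    exact ⟨hx, hb⟩
  · rintro ⟨hx, hb⟩
    subst hb
    exact ⟨⟨hj, hx⟩, rfl⟩

/-- The constraints on block counts that follow from extended justified representation. -/
def good (c : Fin 13 → ℕ) : Prop :=
  1 ≤ c 0 ∧ 1 ≤ c 12 ∧ 1 ≤ c 1 + c 2 ∧ 1 ≤ c 4 + c 5 ∧ 1 ≤ c 7 + c 8 ∧ 1 ≤ c 10 + c 11 ∧
  (2 ≤ c 1 + c 2 ∨ 2 ≤ c 0 + c 1) ∧ (2 ≤ c 1 + c 2 ∨ 2 ≤ c 2 + c 3) ∧
  (2 ≤ c 4 + c 5 ∨ 2 ≤ c 3 + c 4) ∧ (2 ≤ c 4 + c 5 ∨ 2 ≤ c 5 + c 6) ∧
  (2 ≤ c 7 + c 8 ∨ 2 ≤ c 6 + c 7) ∧ (2 ≤ c 7 + c 8 ∨ 2 ≤ c 8 + c 9) ∧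
  (2 ≤ c 10 + c 11 ∨ 2 ≤ c 9 + c 10) ∧ (2 ≤ c 10 + c 11 ∨ 2 ≤ c 11 + c 12)

instance (c : Fin 13 → ℕ) : Decidable (good c) := by unfold good; infer_instance

/-- The block counts after moving one member from block `s` to block `t`. -/
def upd (s t : Fin 13) (j : Fin 13) : ℕ :=
  yy j - (if s = j then 1 else 0) + (if t = j then 1 else 0)

lemma isolated : ∀ s t : Fin 13, 1 ≤ yy s → good (upd s t) → ∀ j, upd s t j = yy j := by
  decide +kernel

lemma use_ejr {W : Finset (Fin 23)} (hW : IsEJR bal 11 W) (l : ℕ) (hl : 1 ≤ l)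
    (S : Finset (Fin 44)) (h : 4 * l ≤ S.card) (h' : l ≤ (commonApproved bal S).card) :
    ∃ v ∈ S, l ≤ (bal v ∩ W).card :=
  hW.2 l hl S (cohesive_of h h')

/-- The set of voters whose first and last blocks are as given. -/
def vs (a b : Fin 13) : Finset (Fin 44) := Finset.univ.filter (fun v => lo v = a ∧ hi v = b)

lemma mem_vs (a b : Fin 13) (v : Fin 44) : v ∈ vs a b ↔ lo v = a ∧ hi v = b := by
  simp [vs]

lemma ejr1 {W : Finset (Fin 23)} (hW : IsEJR bal 11 W) (a b : Fin 13)
    (h : 4 ≤ (vs a b).card) (h' : 1 ≤ (commonApproved bal (vs a b)).card) :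
    1 ≤ ∑ j ∈ Finset.univ.filter (fun j : Fin 13 => a ≤ j ∧ j ≤ b), cnt W j := by
  obtain ⟨v, hv, hc⟩ := use_ejr hW 1 le_rfl (vs a b) (by omega) h'
  rw [mem_vs] at hv
  rw [card_inter, hv.1, hv.2] at hc
  exact hc

lemma ejr2 {W : Finset (Fin 23)} (hW : IsEJR bal 11 W) (a b a' b' : Fin 13)
    (h : 8 ≤ (vs a b ∪ vs a' b').card)
    (h' : 2 ≤ (commonApproved bal (vs a b ∪ vs a' b')).card) :
    2 ≤ ∑ j ∈ Finset.univ.filter (fun j : Fin 13 => a ≤ j ∧ j ≤ b), cnt W j ∨
    2 ≤ ∑ j ∈ Finset.univ.filter (fun j : Fin 13 => a' ≤ j ∧ j ≤ b'), cnt W j := by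
  obtain ⟨v, hv, hc⟩ := use_ejr hW 2 (by omega) (vs a b ∪ vs a' b') (by omega) h'
  rw [Finset.mem_union, mem_vs, mem_vs] at hv
  rcases hv with hv | hv
  · left
    rw [card_inter, hv.1, hv.2] at hc
    exact hc
  · right
    rw [card_inter, hv.1, hv.2] at hc
    exact hc

lemma sum_one (c : Fin 13 → ℕ) (a : Fin 13) :
    ∑ j ∈ Finset.univ.filter (fun j : Fin 13 => a ≤ j ∧ j ≤ a), c j = c a := by
  have : Finset.univ.filter (fun j : Fin 13 => a ≤ j ∧ j ≤ a) = {a} := by
    ext j
    simp only [Finset.mem_filter, Finset.mem_univ, true_and, Finset.mem_singleton]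
    constructor
    · rintro ⟨h1, h2⟩
      exact le_antisymm h2 h1
    · rintro rfl
      exact ⟨le_rfl, le_rfl⟩
  rw [this, Finset.sum_singleton]

lemma sum_two (c : Fin 13 → ℕ) (a b : Fin 13) (hab : b.val = a.val + 1) :
    ∑ j ∈ Finset.univ.filter (fun j : Fin 13 => a ≤ j ∧ j ≤ b), c j = c a + c b := by
  have : Finset.univ.filter (fun j : Fin 13 => a ≤ j ∧ j ≤ b) = {a, b} := by
    ext j
    simp only [Finset.mem_filter, Finset.mem_univ, true_and, Finset.mem_insert,
      Finset.mem_singleton, Fin.le_def, Fin.ext_iff]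
    omega
  rw [this, Finset.sum_pair]
  intro h
  rw [h] at hab
  omega

lemma good_of_ejr {W : Finset (Fin 23)} (hW : IsEJR bal 11 W) : good (cnt W) := by
  have p0 := ejr1 hW 0 0 (by decide +kernel) (by decide +kernel)
  have p12 := ejr1 hW 12 12 (by decide +kernel) (by decide +kernel)
  have g1 := ejr1 hW 1 2 (by decide +kernel) (by decide +kernel)
  have g2 := ejr1 hW 4 5 (by decide +kernel) (by decide +kernel)
  have g3 := ejr1 hW 7 8 (by decide +kernel) (by decide +kernel)
  have g4 := ejr1 hW 10 11 (by decide +kernel) (by decide +kernel)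
  have a1 := ejr2 hW 1 2 0 1 (by decide +kernel) (by decide +kernel)
  have b1 := ejr2 hW 1 2 2 3 (by decide +kernel) (by decide +kernel)
  have a2 := ejr2 hW 4 5 3 4 (by decide +kernel) (by decide +kernel)
  have b2 := ejr2 hW 4 5 5 6 (by decide +kernel) (by decide +kernel)
  have a3 := ejr2 hW 7 8 6 7 (by decide +kernel) (by decide +kernel)
  have b3 := ejr2 hW 7 8 8 9 (by decide +kernel) (by decide +kernel)
  have a4 := ejr2 hW 10 11 9 10 (by decide +kernel) (by decide +kernel)
  have b4 := ejr2 hW 10 11 11 12 (by decide +kernel) (by decide +kernel)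
  rw [sum_one] at p0 p12
  rw [sum_two _ _ _ (by decide)] at g1 g2 g3 g4
  rw [sum_two _ _ _ (by decide), sum_two _ _ _ (by decide)] at a1 b1 a2 b2 a3 b3 a4 b4
  exact ⟨p0, p12, g1, g2, g3, g4, a1, b1, a2, b2, a3, b3, a4, b4⟩

lemma cnt_move (W : Finset (Fin 23)) (x x' : Fin 23) (hx : x ∈ W) (hx' : x' ∉ W) (j : Fin 13) :
    cnt (insert x' (W.erase x)) j =
      cnt W j - (if blk x = j then 1 else 0) + (if blk x' = j then 1 else 0) := by
  unfold cnt
  rw [Finset.filter_insert, Finset.filter_erase]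
  have hn : x' ∉ (W.filter (fun x => blk x = j)).erase x := by
    intro h
    exact hx' (Finset.mem_filter.mp (Finset.mem_of_mem_erase h)).1
  by_cases h1 : blk x = j
  · have hmem : x ∈ W.filter (fun x => blk x = j) := Finset.mem_filter.mpr ⟨hx, h1⟩
    by_cases h2 : blk x' = j
    · rw [if_pos h2, Finset.card_insert_of_notMem hn, Finset.card_erase_of_mem hmem,
        if_pos h1, if_pos h2]
    · rw [if_neg h2, Finset.card_erase_of_mem hmem, if_pos h1, if_neg h2]
      omega
  · have hmem : x ∉ W.filter (fun x => blk x = j) := by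
      intro h
      exact h1 (Finset.mem_filter.mp h).2
    by_cases h2 : blk x' = j
    · rw [if_pos h2, Finset.card_insert_of_notMem hn, Finset.erase_eq_of_notMem hmem,
        if_neg h1, if_pos h2]
      omega
    · rw [if_neg h2, Finset.erase_eq_of_notMem hmem, if_neg h1, if_neg h2]
      omega

lemma step {U V : Finset (Fin 23)} (hU : cnt U = yy) (hV : IsEJR bal 11 V)
    (hadj : Adjacent 11 U V) : cnt V = yy := by
  obtain ⟨cU, cV, cI⟩ := hadj
  have d1 : (U \ V).card = 1 := by
    have := Finset.card_sdiff_add_card_inter U V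
    omega
  have d2 : (V \ U).card = 1 := by
    have := Finset.card_sdiff_add_card_inter V U
    rw [Finset.inter_comm] at this
    omega
  obtain ⟨x, hx⟩ := Finset.card_eq_one.mp d1
  obtain ⟨x', hx'⟩ := Finset.card_eq_one.mp d2
  have mx : x ∈ U ∧ x ∉ V := by
    have : x ∈ U \ V := by rw [hx]; exact Finset.mem_singleton_self x
    exact Finset.mem_sdiff.mp this
  have mx' : x' ∈ V ∧ x' ∉ U := by
    have : x' ∈ V \ U := by rw [hx']; exact Finset.mem_singleton_self x'
    exact Finset.mem_sdiff.mp this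
  have hVeq : V = insert x' (U.erase x) := by
    ext z
    simp only [Finset.mem_insert, Finset.mem_erase]
    constructor
    · intro hz
      by_cases hzU : z ∈ U
      · right
        refine ⟨?_, hzU⟩
        rintro rfl
        exact mx.2 hz
      · left
        have : z ∈ V \ U := Finset.mem_sdiff.mpr ⟨hz, hzU⟩
        rw [hx'] at this
        exact Finset.mem_singleton.mp this
    · rintro (rfl | ⟨hne, hzU⟩)
      · exact mx'.1
      · by_contra hzV
        have : z ∈ U \ V := Finset.mem_sdiff.mpr ⟨hzU, hzV⟩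
        rw [hx] at this
        exact hne (Finset.mem_singleton.mp this)
  have hupd : cnt V = upd (blk x) (blk x') := by
    funext j
    rw [hVeq, cnt_move U x x' mx.1 mx'.2 j, hU]
    rfl
  have hpos : 1 ≤ yy (blk x) := by
    rw [← hU]
    unfold cnt
    rw [Nat.one_le_iff_ne_zero, ← Nat.pos_iff_ne_zero, Finset.card_pos]
    exact ⟨x, Finset.mem_filter.mpr ⟨mx.1, rfl⟩⟩
  have hg := good_of_ejr hV
  rw [hupd] at hg ⊢
  funext j
  exact isolated (blk x) (blk x') hpos hg j

/-- **Main result.** There are an electorate of `n ≥ 1` voters, `m` candidates and a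
committee size `k`, `1 ≤ k ≤ m`, lying in the candidate interval domain and in the voter
interval domain, for which the committees with extended justified representation are not
connected. -/
theorem result : ∃ (n m k : ℕ) (A : Fin n → Finset (Fin m)),
    1 ≤ n ∧ 1 ≤ k ∧ k ≤ m ∧ CandidateInterval A ∧ VoterInterval A ∧ ¬ EJRConnected A k := by
  refine ⟨44, 23, 11, bal, by norm_num, by norm_num, by norm_num, ci, vi, ?_⟩
  intro hcon
  have hpath := hcon W0 W1 ejr_W0 ejr_W1
  have key : ∀ U : Finset (Fin 23),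
      Relation.ReflTransGen (fun U V => IsEJR bal 11 U ∧ IsEJR bal 11 V ∧ Adjacent 11 U V)
        W0 U → cnt U = yy := by
    intro U hU
    induction hU with
    | refl => exact cnt_W0
    | tail _ hstep ih => exact step ih hstep.2.1 hstep.2.2
  exact cnt_W1 (key W1 hpath)

end Pool.Agent.Results.MP_5ed545_co.DisconnectedEJR
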